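import Mathlib

/-!
# MP_966f71_lc: rank and minors, pencils, grid points (over any field)

`exists_minor`: a matrix of rank `k` has a nonzero `k` by `k` minor.
`pencil_grid`: finitely many pencils `A r + t B r` and points `t0 r`; in every finite set `G` of more
than `∑ rank (A r + t0 r B r)` scalars there is one `g` with
`rank (A r + t0 r B r) ≤ rank (A r + g B r)` for all `r` at once.
-/

namespace R2M

open Matrix Polynomial

variable {F : Type*} [Field F]

section minors

variable {m n : Type*} [Fintype m] [Fintype n]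

omit [Fintype m] in
theorem exists_cols (A : Matrix m n F) (k : ℕ) (hk : A.rank = k) :
    ∃ t : Fin k → n, LinearIndependent F (fun j => A.col (t j)) := by
  classical
  obtain ⟨κ, a, ha, hsp, hli⟩ := exists_linearIndependent' F A.col
  have hκ : Finite κ := Finite.of_injective a ha
  have hκ' : Fintype κ := Fintype.ofFinite κ
  have h1 : Fintype.card κ = k := by
    rw [← hk, Matrix.rank_eq_finrank_span_cols, ← hsp, finrank_span_eq_card hli]
  let e : Fin k ≃ κ := (Fintype.equivFinOfCardEq h1).symm
  exact ⟨fun j => a (e j), hli.comp e e.injective⟩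

theorem exists_minor (A : Matrix m n F) (k : ℕ) (hk : A.rank = k) :
    ∃ (s : Fin k → m) (t : Fin k → n), (A.submatrix s t).det ≠ 0 := by
  obtain ⟨t, ht⟩ := exists_cols A k hk
  have h1 : (A.submatrix id t).transpose.rank = k := by
    have h2 : LinearIndependent F (A.submatrix id t).transpose.row := ht
    have h3 := h2.rank_matrix
    rw [Fintype.card_fin] at h3
    exact h3
  obtain ⟨s, hs⟩ := exists_cols (A.submatrix id t).transpose k h1
  refine ⟨s, t, ?_⟩
  have h2 : LinearIndependent F (A.submatrix s t).row := hs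
  rw [Matrix.linearIndependent_rows_iff_isUnit, Matrix.isUnit_iff_isUnit_det] at h2
  exact h2.ne_zero

theorem rank_sub_le {m' n' : Type*} [Fintype m'] [Fintype n'] (A : Matrix m n F) (s : m' → m)
    (t : n' → n) : (A.submatrix s t).rank ≤ A.rank := by
  classical
  have h1 : (A.submatrix s id).rank ≤ A.rank := by
    rw [Matrix.rank_eq_finrank_span_row, Matrix.rank_eq_finrank_span_row]
    refine Submodule.finrank_mono (Submodule.span_mono ?_)
    rintro _ ⟨i, rfl⟩
    exact ⟨s i, rfl⟩
  have h2 : ((A.submatrix s id).submatrix id t).rank ≤ (A.submatrix s id).rank := by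
    rw [Matrix.rank_eq_finrank_span_cols, Matrix.rank_eq_finrank_span_cols]
    refine Submodule.finrank_mono (Submodule.span_mono ?_)
    rintro _ ⟨i, rfl⟩
    exact ⟨t i, rfl⟩
  exact h2.trans h1

theorem le_rank_of_minor {m n : Type*} [Fintype m] [Fintype n] (A : Matrix m n F) (k : ℕ)
    (s : Fin k → m) (t : Fin k → n)
    (h : (A.submatrix s t).det ≠ 0) : k ≤ A.rank := by
  have h1 := Matrix.rank_of_det_ne_zero (A := A.submatrix s t) h
  rw [Fintype.card_fin] at h1
  rw [← h1]
  exact rank_sub_le A s t

end minors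

/-- The pencil lemma. -/
theorem pencil_grid {ι : Type*} [Fintype ι] {m n : ι → Type*} [∀ r, Fintype (m r)]
    [∀ r, Fintype (n r)] (A B : ∀ r, Matrix (m r) (n r) F) (t₀ : ι → F) (G : Finset F)
    (hG : ∑ r, (A r + t₀ r • B r).rank < G.card) :
    ∃ g ∈ G, ∀ r, (A r + t₀ r • B r).rank ≤ (A r + g • B r).rank := by
  classical
  choose s t hst using fun r => exists_minor (A r + t₀ r • B r) _ rfl
  let p : ι → F[X] := fun r =>
    ((X : F[X]) • ((B r).submatrix (s r) (t r)).map C + ((A r).submatrix (s r) (t r)).map C).det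
  have hev : ∀ r x, (p r).eval x = ((A r + x • B r).submatrix (s r) (t r)).det := by
    intro r x
    simp only [p]
    rw [← Polynomial.coe_evalRingHom, RingHom.map_det]
    congr 1
    ext i j
    simp [Matrix.submatrix_apply]
    ring
  have hp0 : ∀ r, p r ≠ 0 := by
    intro r h
    refine hst r ?_
    rw [← hev, h, Polynomial.eval_zero]
  have hdeg : ∀ r, (p r).natDegree ≤ (A r + t₀ r • B r).rank := by
    intro r
    refine (Polynomial.natDegree_det_X_add_C_le _ _).trans ?_
    rw [Fintype.card_fin]
  let P : F[X] := ∏ r, p r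
  have hP0 : P ≠ 0 := Finset.prod_ne_zero_iff.mpr fun r _ => hp0 r
  have hPdeg : P.natDegree < G.card := by
    refine lt_of_le_of_lt ?_ hG
    refine (Polynomial.natDegree_prod_le _ _).trans ?_
    exact Finset.sum_le_sum fun r _ => hdeg r
  have hex : ∃ g ∈ G, P.eval g ≠ 0 := by
    by_contra hcon
    push Not at hcon
    exact hP0 (Polynomial.eq_zero_of_natDegree_lt_card_of_eval_eq_zero' P G hcon hPdeg)
  obtain ⟨g, hg, hgP⟩ := hex
  refine ⟨g, hg, fun r => ?_⟩
  have h1 : (p r).eval g ≠ 0 := by
    intro h
    refine hgP ?_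
    simp only [P, Polynomial.eval_prod]
    exact Finset.prod_eq_zero (Finset.mem_univ r) h
  rw [hev] at h1
  exact le_rank_of_minor _ _ (s r) (t r) h1

/-- the version for an infinite field: a common good value of `t` exists, outside any finite set -/
theorem pencil_infinite [Infinite F] {ι : Type*} [Fintype ι] {m n : ι → Type*}
    [∀ r, Fintype (m r)] [∀ r, Fintype (n r)] (A B : ∀ r, Matrix (m r) (n r) F) (t₀ : ι → F)
    (bad : Finset F) : ∃ g ∉ bad, ∀ r, (A r + t₀ r • B r).rank ≤ (A r + g • B r).rank := by
  classical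
  obtain ⟨G, hG1, hG2⟩ := Infinite.exists_superset_card_eq bad
    (bad.card + ∑ r, (A r + t₀ r • B r).rank + 1) (by omega)
  obtain ⟨g, hg, h⟩ := pencil_grid A B t₀ (G \ bad) (by
    rw [Finset.card_sdiff_of_subset hG1, hG2]
    omega)
  exact ⟨g, (Finset.mem_sdiff.mp hg).2, h⟩

end R2M
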